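import Pool.Agent.Y716.M.WADefs
import Pool.Agent.Y77.M9.Fin
import Pool.Agent.Y362.MH.Norm
import Pool.Agent.Y716.Q.WA2

/-!
# Weak approximation for almost all multihomogeneous forms (helper455; port of `Y716.Q.WA`)
-/

namespace Pool.Agent.Y455.WAM

open Pool.Agent.Y716.Q Pool.Agent.Y716.M Pool.Agent.Y362.MH Pool.Agent.Y77.M9

section
variable {r : ℕ} {n d : Fin r → ℕ}

theorem bl_ne_iff {α : Type*} [Zero α] {x : Var n → α} :
    (∀ i : Fin r, bl x i ≠ 0) ↔ ∀ i : Fin r, ∃ j, x ⟨i, j⟩ ≠ 0 :=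
  forall_congr' fun _ => Function.ne_iff

/-- normalised `p`-adic zeros -/
theorem padic_norm_dataM {p : ℕ} [Fact p.Prime] (f : MvPolynomial (Var n) ℤ)
    (hf : ∀ s ∈ f.support, ∀ i : Fin r, ∑ j : Fin (n i + 1), s ⟨i, j⟩ = d i)
    (x : Var n → ℚ_[p]) (hx0 : ∀ i : Fin r, bl x i ≠ 0) (hxf : MvPolynomial.aeval x f = 0) :
    ∃ (ρ : ∀ i : Fin r, Fin (n i + 1)) (y : Var n → ℤ_[p]), (∀ i, x ⟨i, ρ i⟩ ≠ 0) ∧
      (∀ i, ‖x ⟨i, ρ i⟩‖ ≤ ‖bl x i‖) ∧ (∀ a, x a = x ⟨a.1, ρ a.1⟩ * y a) ∧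
      (∀ i, y ⟨i, ρ i⟩ = 1) ∧ MvPolynomial.aeval y f = 0 := by
  classical
  have hmax : ∀ i : Fin r, ∃ ρ : Fin (n i + 1), ∀ j, ‖x ⟨i, j⟩‖ ≤ ‖x ⟨i, ρ⟩‖ := by
    intro i
    obtain ⟨ρ, _, hρ⟩ := Finset.exists_max_image (Finset.univ : Finset (Fin (n i + 1)))
      (fun j => ‖x ⟨i, j⟩‖) Finset.univ_nonempty
    exact ⟨ρ, fun j => hρ j (Finset.mem_univ j)⟩
  choose ρ hρ using hmax
  have hne : ∀ i, x ⟨i, ρ i⟩ ≠ 0 := by
    intro i h0
    obtain ⟨j, hj⟩ := bl_ne_iff.1 hx0 i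
    have h1 := hρ i j
    rw [h0, norm_zero] at h1
    exact hj (norm_le_zero_iff.mp h1)
  have hle : ∀ a : Var n, ‖(x ⟨a.1, ρ a.1⟩)⁻¹ * x a‖ ≤ 1 := by
    rintro ⟨i, j⟩
    rw [norm_mul, norm_inv, inv_mul_le_iff₀ (norm_pos_iff.mpr (hne i)), mul_one]
    exact hρ i j
  obtain ⟨y, hy⟩ : ∃ y : Var n → ℤ_[p], y = fun a => ⟨(x ⟨a.1, ρ a.1⟩)⁻¹ * x a, hle a⟩ := ⟨_, rfl⟩
  refine ⟨ρ, y, hne, fun i => norm_le_pi_norm (bl x i) (ρ i), fun a => ?_, fun i => ?_, ?_⟩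
  · rw [hy]
    change x a = x ⟨a.1, ρ a.1⟩ * ((x ⟨a.1, ρ a.1⟩)⁻¹ * x a)
    rw [mul_inv_cancel_left₀ (hne a.1)]
  · apply Subtype.ext
    simp [hy, hne i]
  · have h1 : (algebraMap ℤ_[p] ℚ_[p]) (MvPolynomial.aeval y f) = 0 := by
      have h2 : (algebraMap ℤ_[p] ℚ_[p]) (MvPolynomial.aeval y f)
          = MvPolynomial.aeval (fun a : Var n => (fun i => (x ⟨i, ρ i⟩)⁻¹) a.1 * x a) f := by
        rw [MvPolynomial.aeval_def, MvPolynomial.aeval_def, MvPolynomial.hom_eval₂, hy]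
        congr 1
      rw [h2]
      have h3 := aeval_block f hf (fun i => (x ⟨i, ρ i⟩)⁻¹) x
      rw [hxf, mul_zero] at h3
      exact h3
    have hinj : Function.Injective (algebraMap ℤ_[p] ℚ_[p]) := FaithfulSMul.algebraMap_injective _ _
    exact (map_eq_zero_iff _ hinj).mp h1

/-- integral approximations of `p`-adic integral zeros -/
theorem approx_of_intM {p : ℕ} [Fact p.Prime] (f : MvPolynomial (Var n) ℤ) (y : Var n → ℤ_[p])
    {ρ : ∀ i : Fin r, Fin (n i + 1)} (hyr : ∀ i, y ⟨i, ρ i⟩ = 1)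
    (hyf : MvPolynomial.aeval y f = 0) (E : ℕ) :
    ∃ z : Var n → ℤ, (∀ i, z ⟨i, ρ i⟩ = 1) ∧ (p : ℤ) ^ E ∣ MvPolynomial.eval z f ∧
      ∀ a, (p : ℤ_[p]) ^ E ∣ y a - (z a : ℤ_[p]) := by
  classical
  obtain ⟨z, hz⟩ : ∃ z : Var n → ℤ, z = fun a => if a.2 = ρ a.1 then 1
      else (PadicInt.appr (y a) E : ℤ) := ⟨_, rfl⟩
  have hker : ∀ a, PadicInt.toZModPow E (y a) = ((z a : ℤ) : ZMod (p ^ E)) := by
    rintro ⟨i, j⟩
    by_cases hj : j = ρ i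
    · subst hj
      rw [hyr, hz]; simp
    · have : PadicInt.toZModPow E (y ⟨i, j⟩) =
          ((PadicInt.appr (y ⟨i, j⟩) E : ℕ) : ZMod (p ^ E)) := rfl
      rw [this, hz]
      simp [hj]
  refine ⟨z, fun i => by simp [hz], ?_, ?_⟩
  · have h3 : ((MvPolynomial.eval z f : ℤ) : ZMod (p ^ E)) = 0 := by
      have h4 : PadicInt.toZModPow E (MvPolynomial.aeval y f) =
          ((MvPolynomial.eval z f : ℤ) : ZMod (p ^ E)) := by
        rw [MvPolynomial.aeval_def, MvPolynomial.hom_eval₂]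
        have h5 : ((MvPolynomial.eval z f : ℤ) : ZMod (p ^ E))
            = (Int.castRingHom (ZMod (p ^ E))) (MvPolynomial.eval₂ (RingHom.id ℤ) z f) := rfl
        rw [h5, MvPolynomial.hom_eval₂]
        have h6 : ((PadicInt.toZModPow E).comp (algebraMap ℤ ℤ_[p]))
            = (Int.castRingHom (ZMod (p ^ E))).comp (RingHom.id ℤ) := RingHom.ext_int _ _
        rw [h6]
        congr 1
        funext i
        exact hker i
      rw [← h4, hyf, map_zero]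
    rw [ZMod.intCast_zmod_eq_zero_iff_dvd] at h3
    exact_mod_cast h3
  · intro i
    have h1 : PadicInt.toZModPow E (y i - (z i : ℤ_[p])) = 0 := by
      rw [map_sub, hker i, map_intCast, sub_self]
    have h2 : y i - (z i : ℤ_[p]) ∈ RingHom.ker (PadicInt.toZModPow (p := p) E) :=
      (RingHom.mem_ker).mpr h1
    rw [PadicInt.ker_toZModPow, Ideal.mem_span_singleton] at h2
    exact h2

/-- local data at a prime -/
theorem local_pM {p : ℕ} [hp : Fact p.Prime] {m : ℕ} (hm : 1 ≤ m) (f : MvPolynomial (Var n) ℤ)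
    (hf : ∀ s ∈ f.support, ∀ i : Fin r, ∑ j : Fin (n i + 1), s ⟨i, j⟩ = d i)
    (z : Var n → ℚ_[p]) (hz0 : ∀ i : Fin r, bl z i ≠ 0) (hzf : MvPolynomial.aeval z f = 0) :
    ∃ c : Var n → ℤ, (∀ E : ℕ, ∃ x : Var n → ℤ, Norm1 x ∧ (p : ℤ) ^ E ∣ MvPolynomial.eval x f ∧
      ∀ a, (p : ℤ) ^ m ∣ x a - c a) ∧
      ∀ x : Var n → ℤ, (∀ a, (p : ℤ) ^ m ∣ x a - c a) → ∀ i : Fin r, ∃ c' : ℚ_[p], c' ≠ 0 ∧
        ∀ j, ‖z ⟨i, j⟩ - c' * (x ⟨i, j⟩ : ℚ_[p])‖ ≤ ‖bl z i‖ / m := by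
  obtain ⟨ρ, Y, hr0, hrn, hY, hYr, hYf⟩ := padic_norm_dataM f hf z hz0 hzf
  obtain ⟨c, hc1, hc2, hc3⟩ := approx_of_intM f Y hYr hYf m
  refine ⟨c, fun E => ?_, fun x hx i => ?_⟩
  · obtain ⟨x, hx1, hx2, hx3⟩ := approx_of_intM f Y hYr hYf (max E m)
    refine ⟨x, fun i => ⟨ρ i, hx1 i⟩, (pow_dvd_pow _ (le_max_left _ _)).trans hx2, fun i => ?_⟩
    rw [← padic_dvd_iff]
    push_cast
    have h1 := (pow_dvd_pow (p : ℤ_[p]) (le_max_right E m)).trans (hx3 i)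
    have := dvd_sub (hc3 i) h1
    simpa using this
  · refine ⟨z ⟨i, ρ i⟩, hr0 i, fun j => ?_⟩
    have h1 : (p : ℤ_[p]) ^ m ∣ Y ⟨i, j⟩ - (x ⟨i, j⟩ : ℤ_[p]) := by
      have h2 := (padic_dvd_iff (p := p) m (x ⟨i, j⟩ - c ⟨i, j⟩)).mpr (hx ⟨i, j⟩)
      push_cast at h2
      have := dvd_sub (hc3 ⟨i, j⟩) h2
      simpa using this
    have h2 : ‖Y ⟨i, j⟩ - (x ⟨i, j⟩ : ℤ_[p])‖ ≤ (p : ℝ) ^ (-(m : ℤ)) := by
      rw [PadicInt.norm_le_pow_iff_mem_span_pow, Ideal.mem_span_singleton]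
      exact h1
    have h3 : z ⟨i, j⟩ - z ⟨i, ρ i⟩ * (x ⟨i, j⟩ : ℚ_[p])
        = z ⟨i, ρ i⟩ * ((Y ⟨i, j⟩ - (x ⟨i, j⟩ : ℤ_[p]) : ℤ_[p]) : ℚ_[p]) := by
      rw [hY ⟨i, j⟩]
      push_cast
      ring
    rw [h3, norm_mul]
    have h4 : ‖((Y ⟨i, j⟩ - (x ⟨i, j⟩ : ℤ_[p]) : ℤ_[p]) : ℚ_[p])‖
        = ‖Y ⟨i, j⟩ - (x ⟨i, j⟩ : ℤ_[p])‖ := rfl
    rw [h4, div_eq_mul_one_div]
    apply mul_le_mul (hrn i) (h2.trans _) (norm_nonneg _) (norm_nonneg _)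
    rw [zpow_neg, zpow_natCast, ← one_div]
    apply one_div_le_one_div_of_le (by exact_mod_cast hm)
    have h5 : m < 2 ^ m := Nat.lt_two_pow_self
    have h6 : 2 ^ m ≤ p ^ m := Nat.pow_le_pow_left hp.out.two_le _
    have h7 : m ≤ p ^ m := by omega
    exact_mod_cast h7

theorem mem_targets {κ : Type*} [Fintype κ] {m : ℕ} {c t : κ → ℤ}
    (hc : ∀ i, c i ∈ Finset.Ico (0 : ℤ) (modN m))
    (ht : ∀ i, t i ∈ Finset.Icc (-(3 * m : ℤ)) (3 * m)) : (c, t) ∈ targets κ m := by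
  classical
  unfold targets
  rw [Finset.mem_product, Fintype.mem_piFinset, Fintype.mem_piFinset]
  exact ⟨hc, ht⟩

theorem wa_of_targetsM {m : ℕ} (hm : 1 ≤ m) {f : MvPolynomial (Var n) ℤ}
    (hf : ∀ s ∈ f.support, ∀ i : Fin r, ∑ j : Fin (n i + 1), s ⟨i, j⟩ = d i)
    (h : ∀ t ∈ targets (Var n) m,
      LocSolTM (modN m) t.1 (fun i => (t.2 i : ℝ) / (3 * m)) (1 / (3 * m)) f →
      SolTM (modN m) t.1 (fun i => (t.2 i : ℝ) / (3 * m)) (1 / (3 * m)) f) : WeakApproxM m f := by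
  classical
  intro z y hz hy0 hyf
  have hmr : (1:ℝ) ≤ m := by exact_mod_cast hm
  -- data at the primes
  have hloc : ∀ p : ℕ, p.Prime → ∃ c : Var n → ℤ, (∀ E : ℕ, ∃ x : Var n → ℤ, Norm1 x ∧
      (p : ℤ) ^ E ∣ MvPolynomial.eval x f ∧ ∀ i, (p : ℤ) ^ m ∣ x i - c i) ∧
      ∀ x : Var n → ℤ, (∀ i, (p : ℤ) ^ m ∣ x i - c i) → ∀ [Fact p.Prime], ∀ i : Fin r,
        ∃ c' : ℚ_[p], c' ≠ 0 ∧
        ∀ j, ‖z p ⟨i, j⟩ - c' * (x ⟨i, j⟩ : ℚ_[p])‖ ≤ ‖bl (z p) i‖ / m := by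
    intro p hp
    haveI : Fact p.Prime := ⟨hp⟩
    obtain ⟨c, h1, h2⟩ := local_pM hm f hf (z p) (hz p).1 (hz p).2
    exact ⟨c, h1, fun x hx _ => h2 x hx⟩
  choose! cP hcP1 hcP2 using hloc
  -- Chinese remainder theorem
  have hcrt : ∀ i, ∃ c : ℤ, c ∈ Finset.Ico (0 : ℤ) (modN m) ∧
      ∀ p ∈ primesUpTo m, (p : ℤ) ^ m ∣ c - cP p i := by
    intro i
    have := Ideal.exists_forall_sub_mem_ideal (R := ℤ)
      (I := fun p : primesUpTo m => Ideal.span {((p : ℕ) : ℤ) ^ m}) (by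
        intro p q hpq
        simp only [Function.onFun]
        rw [Ideal.isCoprime_span_singleton_iff]
        exact (Nat.isCoprime_iff_coprime.mpr
          (primes_coprime p.2 q.2 (fun h => hpq (Subtype.ext h)))).pow) (fun p => cP p i)
    obtain ⟨c, hc⟩ := this
    have hN0 : (0 : ℤ) < modN m := by exact_mod_cast modN_pos m
    refine ⟨c % (modN m : ℤ), ?_, fun p hp => ?_⟩
    · rw [Finset.mem_Ico]
      exact ⟨Int.emod_nonneg _ hN0.ne', Int.emod_lt_of_pos _ hN0⟩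
    · have h1 : (p : ℤ) ^ m ∣ c - cP p i := Ideal.mem_span_singleton.mp (hc ⟨p, hp⟩)
      have h2 : (p : ℤ) ^ m ∣ (modN m : ℤ) := by
        exact_mod_cast dvd_modN (mem_primesUpTo.mp hp).2 (mem_primesUpTo.mp hp).1
      have h3 : (modN m : ℤ) ∣ c % (modN m : ℤ) - c := by
        have := Int.emod_add_mul_ediv c (modN m : ℤ)
        exact ⟨-(c / (modN m : ℤ)), by linarith⟩
      have := dvd_add (h2.trans h3) h1
      simpa using this
  choose c hc1 hc2 using hcrt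
  -- real data
  have hreal : ∀ i : Fin r, ∃ ρ : Fin (n i + 1), y ⟨i, ρ⟩ ≠ 0 ∧ |y ⟨i, ρ⟩| ≤ ‖bl y i‖ ∧
      ∀ j, |(y ⟨i, ρ⟩)⁻¹ * y ⟨i, j⟩| ≤ 1 := fun i => real_norm_data (bl y i) (hy0 i)
  choose ρ hr0 hrn hr1 using hreal
  have hgrid : ∀ a : Var n, ∃ t ∈ Finset.Icc (-(3 * m : ℤ)) (3 * m),
      |(y ⟨a.1, ρ a.1⟩)⁻¹ * y a - (t : ℝ) / (3 * m)| ≤ 1 / (3 * m) := by
    rintro ⟨i, j⟩
    have h1 := abs_le.mp (hr1 i j)
    have h3 : (0:ℝ) < 3 * m := by linarith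
    refine ⟨⌊(y ⟨i, ρ i⟩)⁻¹ * y ⟨i, j⟩ * (3 * m)⌋, ?_, ?_⟩
    · rw [Finset.mem_Icc]
      constructor
      · rw [Int.le_floor]
        push_cast
        have := mul_le_mul_of_nonneg_right h1.1 h3.le
        linarith
      · have h4 : (⌊(y ⟨i, ρ i⟩)⁻¹ * y ⟨i, j⟩ * (3 * m)⌋ : ℝ) ≤ 3 * m := by
          refine (Int.floor_le _).trans ?_
          have := mul_le_mul_of_nonneg_right h1.2 h3.le
          linarith
        exact_mod_cast h4
    · have h4 := Int.floor_le ((y ⟨i, ρ i⟩)⁻¹ * y ⟨i, j⟩ * (3 * m))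
      have h5 := Int.lt_floor_add_one ((y ⟨i, ρ i⟩)⁻¹ * y ⟨i, j⟩ * (3 * m))
      have h6 : (y ⟨i, ρ i⟩)⁻¹ * y ⟨i, j⟩ -
          (⌊(y ⟨i, ρ i⟩)⁻¹ * y ⟨i, j⟩ * (3 * m)⌋ : ℝ) / (3 * m) =
          ((y ⟨i, ρ i⟩)⁻¹ * y ⟨i, j⟩ * (3 * m) -
            ⌊(y ⟨i, ρ i⟩)⁻¹ * y ⟨i, j⟩ * (3 * m)⌋) / (3 * m) := by
        field_simp
      show |(y ⟨i, ρ i⟩)⁻¹ * y ⟨i, j⟩ -
          (⌊(y ⟨i, ρ i⟩)⁻¹ * y ⟨i, j⟩ * (3 * m)⌋ : ℝ) / (3 * m)| ≤ 1 / (3 * m)
      rw [h6, abs_div, abs_of_pos h3]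
      apply div_le_div_of_nonneg_right _ h3.le
      rw [abs_le]
      constructor <;> linarith
  choose t ht1 ht2 using hgrid
  have hmem : (c, t) ∈ targets (Var n) m := mem_targets hc1 ht1
  have hL : LocSolTM (modN m) c (fun i => (t i : ℝ) / (3 * m)) (1 / (3 * m)) f := by
    constructor
    · intro p hp E
      obtain ⟨x, hx1, hx2, hx3⟩ := hcP1 p hp E
      refine ⟨x, hx1, hx2, fun a ha i => ?_⟩
      rcases pow_dvd_modN hp ha with ⟨h1, h2⟩ | h1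
      · have h3 : (p : ℤ) ^ a ∣ (p : ℤ) ^ m := by exact_mod_cast h2
        refine h3.trans ?_
        have := dvd_sub (hx3 i) (hc2 i p (mem_primesUpTo.mpr ⟨h1, hp⟩))
        simpa using this
      · have h3 : (p : ℤ) ^ a = 1 := by exact_mod_cast h1
        rw [h3]; exact one_dvd _
    · refine ⟨fun a => (y ⟨a.1, ρ a.1⟩)⁻¹ * y a, fun i => ⟨ρ i, inv_mul_cancel₀ (hr0 i)⟩,
        fun a => hr1 a.1 a.2, ht2, ?_⟩
      have h3 := aeval_block f hf (fun i => (y ⟨i, ρ i⟩)⁻¹) y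
      rw [hyf, mul_zero] at h3
      exact h3
  obtain ⟨x, hx1, hx2, hx3, P, hP, hx4⟩ := h (c, t) hmem hL
  simp only at hx3 hx4
  refine ⟨fun a => (x a : ℚ), ?_, by rw [aeval_castZ, hx2, Int.cast_zero], ?_, ?_⟩
  · intro i h0
    apply (hx1 i).ne_zero'
    funext j
    have := congrFun h0 j
    simp only [bl, Pi.zero_apply] at this ⊢
    exact_mod_cast this
  · intro p hp hpm i
    have := hcP2 p hp.out x (fun i => by
      have h1 : (p : ℤ) ^ m ∣ (modN m : ℤ) := by exact_mod_cast dvd_modN hp.out hpm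
      have := dvd_add (h1.trans (hx3 i)) (hc2 i p (mem_primesUpTo.mpr ⟨hpm, hp.out⟩))
      simpa using this) i
    obtain ⟨c', h1, h2⟩ := this
    refine ⟨c', h1, fun j => ?_⟩
    have := h2 j
    simpa using this
  · intro i
    have hPi := hP i
    refine ⟨y ⟨i, ρ i⟩ / P i, div_ne_zero (hr0 i) hPi.ne', fun j => ?_⟩
    have h1 : |(y ⟨i, ρ i⟩)⁻¹ * y ⟨i, j⟩ - (t ⟨i, j⟩ : ℝ) / (3 * m)| ≤ 1 / (3 * m) := ht2 ⟨i, j⟩
    have h2 : |(x ⟨i, j⟩ : ℝ) - P i * ((t ⟨i, j⟩ : ℝ) / (3 * m))| ≤ 2 * (1 / (3 * m)) * P i :=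
      hx4 ⟨i, j⟩
    have h0 := hr0 i
    have h3 : y ⟨i, j⟩ - y ⟨i, ρ i⟩ / P i * ((x ⟨i, j⟩ : ℚ) : ℝ) =
        y ⟨i, ρ i⟩ * (((y ⟨i, ρ i⟩)⁻¹ * y ⟨i, j⟩ - (t ⟨i, j⟩ : ℝ) / (3 * m)) -
          ((x ⟨i, j⟩ : ℝ) - P i * ((t ⟨i, j⟩ : ℝ) / (3 * m))) / P i) := by
      push_cast
      field_simp
      ring
    have h6 : ‖bl y i‖ / m = ‖bl y i‖ * (1 / m) := div_eq_mul_one_div _ _
    rw [h3, abs_mul, h6]
    apply mul_le_mul (hrn i) _ (abs_nonneg _) (norm_nonneg _)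
    refine (abs_sub _ _).trans ?_
    have h4 : |((x ⟨i, j⟩ : ℝ) - P i * ((t ⟨i, j⟩ : ℝ) / (3 * m))) / P i| ≤ 2 * (1 / (3 * m)) := by
      rw [abs_div, abs_of_pos hPi, div_le_iff₀ hPi]
      exact h2
    have h5 : (1 : ℝ) / m = 3 * (1 / (3 * m)) := by field_simp
    rw [h5]
    linarith

end

open scoped Classical in
theorem wa_excM {r : ℕ} (n d : Fin r → ℕ) (hexc : ExcStmtM n d) {m : ℕ} (hm : 1 ≤ m) {ε : ℝ}
    (hε : 0 < ε) :
    ∃ H₀ : ℝ, ∀ H : ℝ, H₀ ≤ H →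
    (((formsM n d H).filter (fun f => ¬ WeakApproxM m f)).card : ℝ) ≤
        ε * (formsM n d H).card := by
  have hmr : (1:ℝ) ≤ m := by exact_mod_cast hm
  have hδ : (0:ℝ) < 1 / (3 * m) := by positivity
  have hT0 : (0:ℝ) ≤ (targets (Var n) m).card := Nat.cast_nonneg _
  have h1 := fun t : (Var n → ℤ) × (Var n → ℤ) => hexc (modN m) (modN_pos m) t.1
    (fun i => (t.2 i : ℝ) / (3 * m)) (1 / (3 * m)) hδ
    (ε / ((targets (Var n) m).card + 1)) (by positivity)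
  choose Hf hHf using h1
  obtain ⟨H₀, hH₀⟩ := Finset.exists_le ((targets (Var n) m).image Hf)
  refine ⟨H₀, fun H hH => ?_⟩
  have hsub : (formsM n d H).filter (fun f => ¬ WeakApproxM m f) ⊆
      (targets (Var n) m).biUnion (fun t => (formsM n d H).filter (fun f =>
        LocSolTM (modN m) t.1 (fun i => (t.2 i : ℝ) / (3 * m)) (1 / (3 * m)) f ∧
        ¬ SolTM (modN m) t.1 (fun i => (t.2 i : ℝ) / (3 * m)) (1 / (3 * m)) f)) := by
    intro f hf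
    rw [Finset.mem_filter] at hf
    rw [Finset.mem_biUnion]
    by_contra hcon
    push Not at hcon
    apply hf.2
    apply wa_of_targetsM hm (mem_formsM.mp hf.1).1
    intro t ht hL
    by_contra hS
    exact hcon t ht (Finset.mem_filter.mpr ⟨hf.1, hL, hS⟩)
  have h2 := (Finset.card_le_card hsub).trans Finset.card_biUnion_le
  have h3 := (Nat.cast_le (α := ℝ)).mpr h2
  push_cast at h3
  refine h3.trans ?_
  calc _ ≤ (targets (Var n) m).card • (ε / ((targets (Var n) m).card + 1) *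
        ((formsM n d H).card : ℝ)) := by
        apply Finset.sum_le_card_nsmul
        intro t ht
        exact hHf t H ((hH₀ _ (Finset.mem_image_of_mem Hf ht)).trans hH)
    _ = ((targets (Var n) m).card / ((targets (Var n) m).card + 1)) *
          (ε * ((formsM n d H).card : ℝ)) := by
        rw [nsmul_eq_mul]; ring
    _ ≤ 1 * (ε * ((formsM n d H).card : ℝ)) := by
        apply mul_le_mul_of_nonneg_right _ (by positivity)
        rw [div_le_one (by positivity)]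
        linarith
    _ = _ := one_mul _

theorem elsB_of_solM {r : ℕ} {n d : Fin r → ℕ} {R : ℝ} {f : MvPolynomial (Var n) ℤ}
    (hf : IsM d R f) (h : SolM f) : ElsB f := by
  obtain ⟨⟨x, hx, hx2⟩, h2⟩ := els_of_ratM (ratM_of_solM hf h)
  refine ⟨⟨x, bl_ne_iff.2 hx, hx2⟩, fun p hp => ?_⟩
  obtain ⟨z, hz, hz2⟩ := h2 p hp
  exact ⟨z, bl_ne_iff.2 hz, hz2⟩

theorem ncard_eq_filter'' {r : ℕ} {n : Fin r → ℕ} (d : Fin r → ℕ) (R : ℝ)
    (p : MvPolynomial (Var n) ℤ → Prop) {_hp : DecidablePred p} :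
    ({f : MvPolynomial (Var n) ℤ | IsM d R f ∧ p f} : Set _).ncard =
      ((formsM n d R).filter p).card := by
  rw [← Set.ncard_coe_finset]
  congr 1
  ext f
  simp [mem_formsM]

/-- Weak approximation, with precision tending to infinity, for almost all everywhere locally
soluble multihomogeneous forms. -/
theorem wa_of_exc {r : ℕ} (n d : Fin r → ℕ) (hr : 1 ≤ r) (hd : ∀ i, 2 ≤ d i) (hn : ∀ i, 1 ≤ n i)
    (hcl : ClassStmtM n d) (hexc : ExcStmtM n d) : WAStmtM n d := by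
  classical
  obtain ⟨c, hc0, H₁, hH₁⟩ := solM_positive hr hd hn hcl
  have h1 := fun m : ℕ => wa_excM n d hexc (m := m + 1) (by omega) (ε := c / (m + 1))
    (by positivity)
  choose Hf hHf using h1
  obtain ⟨M, hM⟩ : ∃ M : ℕ → ℕ, M = fun H : ℕ => Nat.findGreatest
      (fun j => ∀ i, i < j → Hf i ≤ (H : ℝ)) H := ⟨_, rfl⟩
  have hMtop : Filter.Tendsto M Filter.atTop Filter.atTop := by
    rw [Filter.tendsto_atTop]
    intro b
    obtain ⟨B, hB⟩ := Finset.exists_le ((Finset.range b).image Hf)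
    filter_upwards [Filter.eventually_ge_atTop b, Filter.eventually_ge_atTop ⌈B⌉₊] with H hH1 hH2
    rw [hM]
    apply Nat.le_findGreatest hH1
    intro i hi
    refine (hB _ (Finset.mem_image_of_mem Hf (Finset.mem_range.mpr hi))).trans ?_
    exact (Nat.le_ceil B).trans (by exact_mod_cast hH2)
  have hMspec : ∀ H : ℕ, 1 ≤ M H → Hf (M H - 1) ≤ (H : ℝ) := by
    intro H hH
    have h2 : ∀ i, i < M H → Hf i ≤ (H : ℝ) := by
      have := Nat.findGreatest_spec (P := fun j => ∀ i, i < j → Hf i ≤ (H : ℝ)) (m := 0) (n := H)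
        (Nat.zero_le _) (fun i hi => absurd hi (Nat.not_lt_zero i))
      rw [hM]
      exact this
    exact h2 _ (by omega)
  refine ⟨M, hMtop, ?_⟩
  rw [Metric.tendsto_atTop]
  intro δ hδ
  obtain ⟨j, hj⟩ := exists_nat_gt (1 / δ)
  have h3 := (Filter.tendsto_atTop.mp hMtop (j + 1)).and (Filter.eventually_ge_atTop ⌈H₁⌉₊)
  obtain ⟨H₂, hH₂⟩ := Filter.eventually_atTop.mp h3
  refine ⟨H₂, fun H hH => ?_⟩
  obtain ⟨h4, h5⟩ := hH₂ H hH
  have hH1 : H₁ ≤ (H : ℝ) := (Nat.le_ceil H₁).trans (by exact_mod_cast h5)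
  have h6 := hH₁ H hH1
  have h7 := hHf (M H - 1) H (hMspec H (by omega))
  have h8 : M H - 1 + 1 = M H := by omega
  rw [h8] at h7
  have h9 : (((M H - 1 : ℕ) : ℝ) + 1) = (M H : ℝ) := by exact_mod_cast h8
  rw [h9] at h7
  have hset1 : ({f : MvPolynomial (Var n) ℤ | ((∀ s ∈ f.support, ∀ i : Fin r,
          ∑ j : Fin (n i + 1), s ⟨i, j⟩ = d i) ∧ ∀ s, |f.coeff s| ≤ (H : ℤ)) ∧ ElsB f ∧
          WeakApproxM (M H) f} : Set _).ncard =
      ((formsM n d (H : ℝ)).filter (fun f => ElsB f ∧ WeakApproxM (M H) f)).card := by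
    rw [← ncard_eq_filter'']
    congr 1
    ext f
    simp only [Set.mem_ofPred_eq, isM_iff_int]
  have hset2 : ({f : MvPolynomial (Var n) ℤ | ((∀ s ∈ f.support, ∀ i : Fin r,
          ∑ j : Fin (n i + 1), s ⟨i, j⟩ = d i) ∧ ∀ s, |f.coeff s| ≤ (H : ℤ)) ∧ ElsB f} :
          Set _).ncard =
      ((formsM n d (H : ℝ)).filter (fun f => ElsB f)).card := by
    rw [← ncard_eq_filter'']
    congr 1
    ext f
    simp only [Set.mem_ofPred_eq, isM_iff_int]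
  rw [hset1, hset2]
  obtain ⟨Fo, hFo⟩ : ∃ Fo, Fo = formsM n d (H : ℝ) := ⟨_, rfl⟩
  have hmem : ∀ f ∈ Fo, IsM d (H : ℝ) f := by
    intro f hf
    rw [hFo] at hf
    exact mem_formsM.mp hf
  have hFo0 : (0:ℝ) < Fo.card := by
    rw [hFo]; exact_mod_cast card_formsM_pos (n := n) d (Nat.cast_nonneg H)
  rw [← hFo] at h6 h7 ⊢
  obtain ⟨a, ha⟩ : ∃ a : ℝ, a = ((Fo.filter (fun f => ElsB f ∧ WeakApproxM (M H) f)).card : ℝ) :=
    ⟨_, rfl⟩
  obtain ⟨b, hb⟩ : ∃ b : ℝ, b = ((Fo.filter (fun f => ElsB f)).card : ℝ) := ⟨_, rfl⟩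
  have hab' : a ≤ b := by
    rw [ha, hb]
    exact card_filter_le' _ _ _ (fun f _ h => h.1)
  have hcb : c * Fo.card ≤ b := by
    refine h6.trans ?_
    rw [hb]
    exact card_filter_le' _ _ _ (fun f hf h => elsB_of_solM (hmem f hf) h)
  have hM0 : (0:ℝ) < M H := by
    have : 0 < M H := by omega
    exact_mod_cast this
  have hba : b ≤ a + c / (M H) * Fo.card := by
    have h10 : (Fo.filter (fun f => ElsB f)) ⊆
        (Fo.filter (fun f => ElsB f ∧ WeakApproxM (M H) f)) ∪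
        (Fo.filter (fun f => ¬ WeakApproxM (M H) f)) := by
      intro f hf
      rw [Finset.mem_filter] at hf
      rw [Finset.mem_union, Finset.mem_filter, Finset.mem_filter]
      by_cases hw : WeakApproxM (M H) f
      · left; exact ⟨hf.1, hf.2, hw⟩
      · right; exact ⟨hf.1, hw⟩
    have h11 := (Finset.card_le_card h10).trans (Finset.card_union_le _ _)
    have h12 : b ≤ a + ((Fo.filter (fun f => ¬ WeakApproxM (M H) f)).card : ℝ) := by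
      rw [ha, hb]; exact_mod_cast h11
    linarith
  have hb0 : 0 < b := lt_of_lt_of_le (by positivity) hcb
  rw [← ha, ← hb, Real.dist_eq]
  have h13 : a / b - 1 = -((b - a) / b) := by field_simp; ring
  rw [h13, abs_neg, abs_of_nonneg (div_nonneg (by linarith) hb0.le), div_lt_iff₀ hb0]
  have h14 : c / (M H) * Fo.card ≤ 1 / (M H) * b := by
    have := mul_le_mul_of_nonneg_left hcb (by positivity : 0 ≤ 1 / (M H : ℝ))
    refine le_trans (le_of_eq ?_) this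
    ring
  have h15 : 1 / (M H : ℝ) < δ := by
    rw [div_lt_iff₀ hM0]
    rw [div_lt_iff₀ hδ] at hj
    have h16 : (j : ℝ) + 1 ≤ M H := by exact_mod_cast h4
    have h17 := mul_le_mul_of_nonneg_left h16 hδ.le
    linarith
  have h18 := mul_lt_mul_of_pos_right h15 hb0
  linarith

end Pool.Agent.Y455.WAM
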